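import Pool.Agent.N520.AN.Stm2

/-!
Project AN2 (helper520), part PAR: normalized parametrization of a subspace.
-/

set_option autoImplicit false

open Set Filter Topology

namespace Pool.Agent.N72.AN2

open Pool.Agent.N520.AN

theorem t_par : Pool.Agent.N520.AN.S2_PAR := by
  intro E _ _ _ q L hL
  have hL' : Module.finrank ℝ L = Module.finrank ℝ E - q := by omega
  obtain ⟨K, hKdef⟩ : ∃ K : Submodule ℝ (EuclideanSpace ℝ (Fin (Module.finrank ℝ E))),
      K = L.map (toEuclidean (E := E)).toLinearEquiv.toLinearMap := ⟨_, rfl⟩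
  have hK' : Module.finrank ℝ K = Module.finrank ℝ E - q := by
    rw [hKdef, ← hL']
    exact LinearEquiv.finrank_map_eq (toEuclidean (E := E)).toLinearEquiv L
  have hmem : ∀ x : E, x ∈ L ↔ toEuclidean x ∈ K := by
    intro x
    rw [hKdef]
    constructor
    · intro h
      exact ⟨x, h, rfl⟩
    · rintro ⟨y, hy, hyx⟩
      have : y = x := (toEuclidean (E := E)).injective hyx
      rw [← this]
      exact hy
  let j : EuclideanSpace ℝ (Fin (Module.finrank ℝ E - q)) ≃ₗᵢ[ℝ] K :=
    ((stdOrthonormalBasis ℝ K).reindex (finCongr hK')).repr.symm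
  let k : EuclideanSpace ℝ (Fin (Module.finrank ℝ E - q)) →L[ℝ] E :=
    ((toEuclidean (E := E)).symm : _ →L[ℝ] E) ∘L K.subtypeL ∘L
      (j.toContinuousLinearEquiv : _ →L[ℝ] K)
  have hk : ∀ f, k f = (toEuclidean (E := E)).symm ((j f : K) : EuclideanSpace ℝ _) := fun f => rfl
  have hk2 : ∀ f, toEuclidean (k f) = ((j f : K) : EuclideanSpace ℝ _) := fun f => by
    rw [hk, ContinuousLinearEquiv.apply_symm_apply]
  refine ⟨k, fun f => ?_, fun x => ?_⟩
  · rw [hk2]
    exact j.norm_map f
  · rw [hmem]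
    constructor
    · rintro ⟨f, rfl⟩
      rw [hk2]
      exact (j f).2
    · intro h
      refine ⟨j.symm ⟨toEuclidean x, h⟩, ?_⟩
      apply (toEuclidean (E := E)).injective
      rw [hk2, LinearIsometryEquiv.apply_symm_apply]

end Pool.Agent.N72.AN2
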